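import Pool.Agent.Lib.MP_bc213e_ag.WCI.Geo

/-! Linear cones: the weights and the degrees that carry no section cancel. -/

namespace Pool.Agent.Lib.MP_bc213e_ag.WCI

open MvPolynomial Finset

variable {N c : ℕ} {a : Fin N → ℕ} {d : Fin c → ℕ} {f : Fin c → MvPolynomial (Fin N) ℂ}

theorem card_le_span {ι κ V : Type} [AddCommGroup V] [Module ℂ V] {v : ι → V}
    (hv : LinearIndependent ℂ v) (w : κ → V) (J : Finset ι) (I : Finset κ)
    (h : ∀ j ∈ J, v j ∈ Submodule.span ℂ (w '' I)) : J.card ≤ I.card := by
  classical
  have h1 : LinearIndependent ℂ fun j : J => v j := hv.comp _ Subtype.val_injective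
  have h2 := linearIndependent_le_span_aux' _ h1 (I.image w : Finset V) (by
    rintro _ ⟨j, rfl⟩
    rw [coe_image]
    exact h j j.2)
  simp only [coe_sort_coe, Fintype.card_coe] at h2
  exact h2.trans card_image_le

/-- Variables of one weight that all lie in the ideal need as many equations of that degree. -/
theorem cone_le (hf : ∀ j, (f j).IsWeightedHomogeneous a (d j)) (hd : ∀ j, 0 < d j) {v : ℕ}
    (h : ∀ i, a i = v → (X i : MvPolynomial (Fin N) ℂ) ∈ Ideal.span (Set.range f)) :
    (univ.filter fun i => a i = v).card ≤ (univ.filter fun j => d j = v).card := by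
  refine card_le_span (Pi.basisFun ℂ (Fin N)).linearIndependent
    (fun j l => constantCoeff (pderiv l (f j))) _ _ fun i hi => ?_
  have hi' := (mem_filter.1 hi).2
  obtain ⟨g, hg⟩ := Ideal.mem_span_range_iff_exists_fun.1 (h i hi')
  have h1 : ∀ j, constantCoeff (f j) = 0 := fun j =>
    (hf j).coeff_eq_zero 0 (by rw [map_zero]; exact (hd j).ne)
  have h2 : ∀ j l, d j ≠ a l → constantCoeff (pderiv l (f j)) = 0 := fun j l hl => by
    rw [constantCoeff_eq, coeff_pderiv, zero_add, (hf j).coeff_eq_zero _ (by
      rw [Finsupp.weight_single, one_smul]; exact hl.symm), zero_mul]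
  have h3 : Pi.basisFun ℂ (Fin N) i = ∑ j ∈ univ.filter fun j => d j = v,
      constantCoeff (g j) • fun l => constantCoeff (pderiv l (f j)) := by
    funext l
    rw [Finset.sum_apply, Pi.basisFun_apply]
    by_cases hl : a l = v
    · have h4 := congrArg (fun p => constantCoeff (pderiv l p)) hg
      simp only [map_sum, Derivation.leibniz, smul_eq_mul, map_add, map_mul, h1, zero_mul,
        add_zero] at h4
      rw [sum_filter_of_ne fun j _ hj => by
        by_contra hn
        exact hj (by simp [h2 j l (hl ▸ hn)])]
      simp only [Pi.smul_apply, smul_eq_mul, h4, pderiv_X, Pi.single_apply]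
      split_ifs with e1 e2 e2
      · simp
      · exact (e2 e1.symm).elim
      · exact (e1 e2.symm).elim
      · simp
    · rw [Pi.single_eq_of_ne fun e : l = i => hl (e ▸ hi')]
      exact (sum_eq_zero fun j hj => by
        simp [h2 j l fun e => hl (e ▸ (mem_filter.1 hj).2)]).symm
  rw [h3]
  exact Submodule.sum_mem _ fun j hj =>
    Submodule.smul_mem _ _ (Submodule.subset_span ⟨j, hj, rfl⟩)

theorem cone_sum (P : ℕ → Prop) [DecidablePred P]
    (h1 : ∀ v, P v → (univ.filter fun i => a i = v).card ≤ (univ.filter fun j => d j = v).card)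
    (φ : ℕ → ℕ) : ∑ i ∈ univ.filter fun i => P (a i), φ (a i) ≤
      ∑ j ∈ univ.filter fun j => P (d j), φ (d j) := by
  have h3 : (univ.filter fun i => P (a i)).val.map a ≤
      (univ.filter fun j => P (d j)).val.map d := by
    refine Multiset.le_iff_count.2 fun v => ?_
    rw [Multiset.count_map, Multiset.count_map]
    change ((univ.filter fun i => P (a i)).filter fun i => v = a i).card ≤
      ((univ.filter fun j => P (d j)).filter fun j => v = d j).card
    rw [filter_filter, filter_filter]
    by_cases hv : P v
    · refine (card_le_card fun i hi => ?_).trans ((h1 v hv).trans (card_le_card fun j hj => ?_))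
      · exact mem_filter.2 ⟨mem_univ _, (mem_filter.1 hi).2.2.symm⟩
      · have e := (mem_filter.1 hj).2
        exact mem_filter.2 ⟨mem_univ _, e ▸ hv, e.symm⟩
    · rw [filter_eq_empty_iff.2 fun i _ (e : P (a i) ∧ v = a i) => hv (e.2 ▸ e.1),
        card_empty]
      exact Nat.zero_le _
  obtain ⟨u, hu⟩ := Multiset.le_iff_exists_add.1 h3
  have h4 := congrArg (fun m => (m.map φ).sum) hu
  simp only [Multiset.map_add, Multiset.sum_add, Multiset.map_map] at h4
  exact Nat.le.intro h4.symm

end Pool.Agent.Lib.MP_bc213e_ag.WCI
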