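import Mathlib

/-! Weighted complete intersections. -/

namespace Pool.Agent.Lib.MP_bc213e_ag.WCI

open MvPolynomial

variable {N c : ℕ}

/-- `x` is a point of the punctured affine cone over `X = V(f)`. -/
def OnCone (f : Fin c → MvPolynomial (Fin N) ℂ) (x : Fin N → ℂ) : Prop :=
  x ≠ 0 ∧ ∀ j, eval x (f j) = 0

/-- `O_X(k)` is invertible: near every point it is generated by a quotient `g / h` of forms, of
degree `k`, with `g` and `h` nonzero at the point. -/
def Cartier (a : Fin N → ℕ) (f : Fin c → MvPolynomial (Fin N) ℂ) (k : ℕ) : Prop :=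
  ∀ x, OnCone f x → ∃ (m : ℕ) (g h : MvPolynomial (Fin N) ℂ),
    g.IsWeightedHomogeneous a (k + m) ∧ h.IsWeightedHomogeneous a m ∧
      eval x g ≠ 0 ∧ eval x h ≠ 0

end Pool.Agent.Lib.MP_bc213e_ag.WCI
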