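import Pool.Agent.Lib.MP_bc213e_ag.WCI.Num

/-! The coefficient at the edge of the range of the Hilbert polynomial. -/

namespace Pool.Agent.Lib.MP_bc213e_ag.WCI

open Polynomial Finset

/-- The backward difference. -/
noncomputable def bd (v : ℂ[X]) : ℂ[X] := v - v.comp (X - 1)

theorem bd_coeff (F : PowerSeries ℂ) (v : ℂ[X]) (j : ℕ) :
    PowerSeries.coeff (j + 1) ((1 - PowerSeries.X) * F) - (bd v).eval ((j + 1 : ℕ) : ℂ) =
      (PowerSeries.coeff (j + 1) F - v.eval ((j + 1 : ℕ) : ℂ)) -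
        (PowerSeries.coeff j F - v.eval (j : ℂ)) := by
  rw [sub_mul, one_mul, map_sub, PowerSeries.coeff_succ_X_mul]
  simp only [bd, eval_sub, eval_comp, eval_X, eval_one, Nat.cast_succ, add_sub_cancel_right]
  ring

theorem bd_step {F : PowerSeries ℂ} {v : ℂ[X]} {t : ℕ}
    (h : ∀ m, t < m → PowerSeries.coeff m F = v.eval (m : ℂ)) (m : ℕ) (hm : t + 1 < m) :
    PowerSeries.coeff m ((1 - PowerSeries.X) * F) = (bd v).eval (m : ℂ) := by
  obtain ⟨j, rfl⟩ : ∃ j, m = j + 1 := ⟨m - 1, by omega⟩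
  rw [← sub_eq_zero, bd_coeff, h _ (by omega), h _ (by omega), sub_self, sub_self, sub_self]

theorem ev_const {v : ℂ[X]} {c : ℂ} (t : ℕ) (h : ∀ m, t < m → v.eval (m : ℂ) = c) : v = C c := by
  refine eq_of_infinite_eval_eq _ _ (Set.infinite_of_injective_forall_mem
    (f := fun n : ℕ => ((n + t + 1 : ℕ) : ℂ)) (fun x y e => ?_) fun n => ?_)
  · have := Nat.cast_injective (R := ℂ) e
    omega
  · exact (h _ (by omega)).trans eval_C.symm

theorem edge_zero {U v : ℂ[X]} {t : ℕ}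
    (h : ∀ m, t < m → PowerSeries.coeff m (U : PowerSeries ℂ) = v.eval (m : ℂ)) : v = 0 := by
  rw [← C_0]
  refine ev_const (t + U.natDegree) fun m hm => ?_
  rw [← h m (by omega), coeff_coe, coeff_eq_zero_of_natDegree_lt (by omega)]

theorem edgeA (U : ℂ[X]) (E : ℕ) : ∀ (F : PowerSeries ℂ) (v : ℂ[X]) (t : ℕ),
    (∀ m, t < m → PowerSeries.coeff m F = v.eval (m : ℂ)) →
    (1 - PowerSeries.X) ^ E * F = (U : PowerSeries ℂ) →
    PowerSeries.coeff t F - v.eval (t : ℂ) = (-1) ^ E * U.coeff (t + E) := by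
  induction E with
  | zero =>
    intro F v t h hF
    rw [pow_zero, one_mul] at hF
    subst hF
    simp [edge_zero h]
  | succ E ih =>
    intro F v t h hF
    have h1 := ih _ _ _ (bd_step h) (by rw [← mul_assoc, ← pow_succ, hF])
    rw [bd_coeff, h _ t.lt_succ_self, sub_self, zero_sub, add_right_comm, add_assoc] at h1
    rw [pow_succ, mul_neg_one, neg_mul, ← h1, neg_neg]

theorem edgeB (R : Subring ℂ) (U : ℂ[X]) (hU : ∀ m, U.coeff m ∈ R) (E : ℕ) :
    ∀ (F : PowerSeries ℂ) (v : ℂ[X]) (t : ℕ),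
    (∀ m, t < m → PowerSeries.coeff m F = v.eval (m : ℂ)) →
    (1 - PowerSeries.X) ^ E * F = (U : PowerSeries ℂ) →
    ∀ m, PowerSeries.coeff m F - v.eval (m : ℂ) ∈ R := by
  induction E with
  | zero =>
    intro F v t h hF m
    rw [pow_zero, one_mul] at hF
    subst hF
    simpa [edge_zero h] using hU m
  | succ E ih =>
    intro F v t h hF
    have h1 := ih _ _ _ (bd_step h) (by rw [← mul_assoc, ← pow_succ, hF])
    have h2 : ∀ n m, t < m + n → PowerSeries.coeff m F - v.eval (m : ℂ) ∈ R := by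
      intro n
      induction n with
      | zero =>
        intro m hm
        rw [h m hm, sub_self]
        exact R.zero_mem
      | succ n ihn =>
        intro m hm
        have h3 := R.sub_mem (ihn (m + 1) (by omega)) (h1 (m + 1))
        rwa [bd_coeff, sub_sub_cancel] at h3
    exact fun m => h2 (t + 1) m (by omega)

theorem edgeC (U : ℂ[X]) (D : ℕ) : ∀ (F : PowerSeries ℂ) (v : ℂ[X]) (t : ℕ),
    (∀ m, t < m → PowerSeries.coeff m F = v.eval (m : ℂ)) →
    (1 - PowerSeries.X) ^ (D + 1) * F = (U : PowerSeries ℂ) → bd^[D] v = C (U.eval 1) := by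
  induction D with
  | zero =>
    intro F v t h hF
    rw [zero_add, pow_one] at hF
    have h1 : ∀ m, PowerSeries.coeff m F = ∑ i ∈ range (m + 1), U.coeff i := by
      intro m
      induction m with
      | zero => simp [← coeff_coe, ← hF]
      | succ m ihm =>
        rw [sum_range_succ, ← ihm, ← coeff_coe, ← hF, sub_mul, one_mul, map_sub,
          PowerSeries.coeff_succ_X_mul, add_sub_cancel]
    refine ev_const (v := v) (t + U.natDegree) fun m hm => ?_
    rw [← h m (by omega), h1, eval_eq_sum_range' (n := m + 1) (by omega)]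
    simp
  | succ D ih =>
    intro F v t h hF
    exact ih _ _ _ (bd_step h) (by rw [← mul_assoc, ← pow_succ, hF])

theorem shift_lt' (v : ℂ[X]) (h0 : 0 < v.natDegree) {ρ : ℝ} (hv : ∀ z, v.eval z = 0 → z.re ≤ ρ)
    {x : ℂ} (hx : ρ + 1 / 2 < x.re) : ‖v.eval (x - 1)‖ < ‖v.eval x‖ := by
  obtain ⟨z, hz⟩ := Complex.exists_root (natDegree_pos_iff_degree_pos.1 h0)
  obtain ⟨w, rfl⟩ := dvd_iff_isRoot.2 hz
  have hw : ∀ y, w.eval y = 0 → y.re ≤ ρ := fun y hy => hv y (by rw [eval_mul, hy, mul_zero])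
  have hw0 : w.eval x ≠ 0 := fun e => by linarith [hw x e]
  have h2 : ‖w.eval (x - 1)‖ ≤ ‖w.eval x‖ :=
    (shift_lt w hw hx).elim le_of_lt fun e => e ▸ le_rfl
  have h3 : ‖x - 1 - z‖ < ‖x - z‖ := by
    have h4 := hv z hz
    rw [← sq_lt_sq₀ (norm_nonneg _) (norm_nonneg _), Complex.sq_norm, Complex.sq_norm,
      Complex.normSq_apply, Complex.normSq_apply]
    simp only [Complex.sub_re, Complex.sub_im, Complex.one_re, Complex.one_im]
    nlinarith
  simp only [eval_mul, eval_sub, eval_X, eval_C, norm_mul]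
  exact (mul_le_mul_of_nonneg_left h2 (norm_nonneg _)).trans_lt
    (mul_lt_mul_of_pos_right h3 (norm_pos_iff.2 hw0))

/-- The edge coefficient vanishes only for `D = 1`, `k = 2`, `U(1) = -1`. -/
theorem rv_edge (U : ℤ[X]) (hm : U.Monic)
    (hU : ∀ z, (U.map (Int.castRingHom ℂ)).eval z = 0 → ‖z‖ = 1 ∧ z ≠ 1) (D k : ℕ) (hD : 0 < D)
    (hDk : D < k) (hk : U.natDegree = k + (D + 1))
    (h1 : (U.map (Int.castRingHom ℂ)).eval 1 ≠ -1) :
    PowerSeries.coeff k ((U.map (Int.castRingHom ℂ) : PowerSeries ℂ) *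
      (PowerSeries.invOneSubPow ℂ (D + 1)).val) ≠ 0 := by
  intro h0
  set V := U.map (Int.castRingHom ℂ) with hV
  have hd : V.natDegree = k + (D + 1) := by rw [hV, hm.natDegree_map, hk]
  have hR : ∀ m, V.coeff m ∈ (Int.castRingHom ℂ).range := fun m => ⟨_, (coeff_map _ m).symm⟩
  obtain ⟨v, hv, hc⟩ := rvb_St D _ V hd hU
  have e1 : ((k + (D + 1) : ℕ) : ℤ) - (D + 1 : ℕ) = k := by omega
  have e2 : (-(k : ℤ) - 1).toNat = 0 := by omega
  rw [e1] at hv hc
  rw [e2] at hc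
  set F := (V : PowerSeries ℂ) * (PowerSeries.invOneSubPow ℂ (D + 1)).val with hF
  have h2 : ∀ m, k < m → PowerSeries.coeff m F = v.eval (m : ℂ) := fun m h => by
    simpa using hc m (by omega)
  have h3 : (1 - PowerSeries.X) ^ (D + 1) * F = (V : PowerSeries ℂ) := by
    have := PowerSeries.one_sub_pow_add_mul_invOneSubPow_val_eq_one_sub_pow ℂ 0 (D + 1)
    rw [zero_add, pow_zero] at this
    rw [hF, mul_left_comm, this, mul_one]
  have hA := edgeA V _ F v k h2 h3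
  rw [h0, zero_sub, ← hd, (hm.map _).coeff_natDegree, mul_one] at hA
  have hC := edgeC V D F v k h2 h3
  obtain ⟨j, rfl⟩ : ∃ j, k = j + 1 := ⟨k - 1, by omega⟩
  have hB : v.eval (j : ℂ) ∈ (Int.castRingHom ℂ).range := by
    have h4 : PowerSeries.coeff j F ∈ (Int.castRingHom ℂ).range := by
      rw [hF, PowerSeries.coeff_mul]
      refine Subring.sum_mem _ fun x _ => Subring.mul_mem _ (by simpa using hR x.1) ?_
      rw [PowerSeries.invOneSubPow_val_succ_eq_mk_add_choose, PowerSeries.coeff_mk]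
      exact natCast_mem _ _
    simpa using Subring.sub_mem _ h4 (edgeB _ V hR _ F v _ h2 h3 j)
  rcases Nat.eq_zero_or_pos v.natDegree with h5 | h5
  · obtain ⟨D, rfl⟩ : ∃ E, D = E + 1 := ⟨D - 1, by omega⟩
    have h6 : bd v = 0 := by rw [eq_C_of_natDegree_eq_zero h5, bd, C_comp, sub_self]
    rw [Function.iterate_succ_apply, h6, Function.iterate_fixed (by simp [bd])] at hC
    exact (hU 1 (C_eq_zero.1 hC.symm)).2 rfl
  have h6 := shift_lt' v h5 hv (x := ((j + 1 : ℕ) : ℂ)) (by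
    have : (1 : ℝ) ≤ j := by exact_mod_cast (by omega : 1 ≤ j)
    rw [Complex.natCast_re]
    push_cast
    linarith)
  rw [← norm_neg (v.eval ((j + 1 : ℕ) : ℂ)), hA, norm_pow, norm_neg, norm_one, one_pow,
    Nat.cast_succ, add_sub_cancel_right] at h6
  obtain ⟨z, hz⟩ := hB
  rw [eq_intCast] at hz
  rw [← hz, Complex.norm_intCast] at h6
  have h7 : z = 0 := Int.abs_lt_one_iff.1 (by exact_mod_cast h6)
  rw [h7, Int.cast_zero] at hz
  have h8 := hv _ hz.symm
  rw [Complex.natCast_re] at h8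
  push_cast at h8
  have h9 : j ≤ 1 := by exact_mod_cast (by linarith : (j : ℝ) ≤ 1)
  obtain rfl : D = 1 := by omega
  have h10 := congrArg (eval ((j + 1 : ℕ) : ℂ)) hC
  simp only [Function.iterate_one, bd, eval_sub, eval_comp, eval_X, eval_one, eval_C,
    Nat.cast_succ, add_sub_cancel_right, ← hz, sub_zero] at h10
  refine h1 ?_
  rw [← h10, ← Nat.cast_succ, ← neg_eq_iff_eq_neg, hA]
  norm_num

variable {ι κ : Type} {s : Finset ι} {t : Finset κ} {a : ι → ℕ} {d : κ → ℕ}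

theorem edge_w {x M : ℕ} (h0 : 0 < x) (h1 : x ≠ 1) (hM : x ≤ M) : (x : ℤ) + 1 =
    ∑ q ∈ Icc 2 M, if q ∣ x then (q.totient : ℤ) - 2 * ArithmeticFunction.moebius q else 0 := by
  have e : (Icc 2 M).filter (fun q => q ∣ x) = x.divisors.erase 1 := Finset.ext fun q => by
    simp only [mem_erase, Nat.mem_divisors, mem_filter, mem_Icc]
    refine ⟨fun h => ⟨by omega, h.2, h0.ne'⟩, fun h => ?_⟩
    have h2 := Nat.le_of_dvd h0 h.2.1
    have h3 := Nat.pos_of_dvd_of_pos h.2.1 h0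
    exact ⟨⟨by omega, by omega⟩, h.2.1⟩
  have h2 : ∑ q ∈ x.divisors, (q.totient : ℤ) = x := by exact_mod_cast Nat.sum_totient x
  have h3 : ∑ q ∈ x.divisors, ArithmeticFunction.moebius q = 0 := by
    rw [← ArithmeticFunction.coe_mul_zeta_apply, ArithmeticFunction.moebius_mul_coe_zeta,
      ArithmeticFunction.one_apply_ne h1]
  have h4 := add_sum_erase x.divisors
    (fun q => (q.totient : ℤ) - 2 * ArithmeticFunction.moebius q) (Nat.one_mem_divisors.2 h0.ne')
  rw [sum_sub_distrib (s := x.divisors), ← mul_sum, h2, h3] at h4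
  rw [← sum_filter, e]
  simp only [Nat.totient_one, ArithmeticFunction.moebius_apply_one] at h4
  omega

theorem edge_sum (ha : ∀ i ∈ s, 0 < a i) (h1 : ∀ i ∈ s, a i ≠ 1) {M : ℕ} (hM : ∀ i ∈ s, a i ≤ M) :
    ((∑ i ∈ s, a i + s.card : ℕ) : ℤ) = ∑ q ∈ Icc 2 M,
      cnt s a q * ((q.totient : ℤ) - 2 * ArithmeticFunction.moebius q) := by
  rw [card_eq_sum_ones, ← sum_add_distrib]
  push_cast
  rw [sum_congr rfl fun i hi => edge_w (ha i hi) (h1 i hi) (hM i hi), sum_comm]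
  refine sum_congr rfl fun q _ => ?_
  rw [← sum_filter, sum_const, cnt, nsmul_eq_mul]

/-- A regular pair without entries `1` has `∑ d - ∑ a ≥ #a - #d`. -/
theorem edge_cnt (ha : ∀ i ∈ s, 0 < a i) (hd : ∀ j ∈ t, 0 < d j) (ha1 : ∀ i ∈ s, a i ≠ 1)
    (hd1 : ∀ j ∈ t, d j ≠ 1) (h : ∀ q, 1 < q → cnt s a q ≤ cnt t d q) :
    ∑ i ∈ s, a i + s.card ≤ ∑ j ∈ t, d j + t.card := by
  rw [← Nat.cast_le (α := ℤ), edge_sum ha ha1 (M := s.sup a + t.sup d) fun i hi =>
    (le_sup hi).trans (Nat.le_add_right _ _), edge_sum hd hd1 (M := s.sup a + t.sup d)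
    fun j hj => (le_sup hj).trans (Nat.le_add_left _ _)]
  refine sum_le_sum fun q hq => mul_le_mul_of_nonneg_right
    (Nat.cast_le.2 (h q (mem_Icc.1 hq).1)) ?_
  rcases (mem_Icc.1 hq).1.eq_or_lt with rfl | h2
  · rw [ArithmeticFunction.moebius_apply_prime Nat.prime_two]
    omega
  · obtain ⟨r, hr⟩ := Nat.totient_even h2
    have h3 := Nat.totient_pos.2 (by omega : 0 < q)
    have h4 := (abs_le.1 (ArithmeticFunction.abs_moebius_le_one (n := q))).2
    omega

theorem geo_int (ha : ∀ i ∈ s, 0 < a i) (hd : ∀ j ∈ t, 0 < d j)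
    (h : ∀ q, 1 < q → cnt s a q ≤ cnt t d q) : ∃ U : ℤ[X], U.Monic ∧
      ∏ j ∈ t, ∑ l ∈ range (d j), (X : ℂ[X]) ^ l =
        (∏ i ∈ s, ∑ l ∈ range (a i), (X : ℂ[X]) ^ l) * U.map (Int.castRingHom ℂ) := by
  have hma : (∏ i ∈ s, ∑ l ∈ range (a i), (X : ℤ[X]) ^ l).Monic :=
    monic_prod_of_monic _ _ fun i hi => monic_geom_sum_X (ha i hi).ne'
  have hmd : (∏ j ∈ t, ∑ l ∈ range (d j), (X : ℤ[X]) ^ l).Monic :=
    monic_prod_of_monic _ _ fun j hj => monic_geom_sum_X (hd j hj).ne'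
  obtain ⟨U, hU⟩ := (map_dvd_map (Int.castRingHom ℂ) (Int.castRingHom ℂ).injective_int
    (y := ∏ j ∈ t, ∑ l ∈ range (d j), (X : ℤ[X]) ^ l) hma).1 (by
      simpa only [Polynomial.map_prod, Polynomial.map_sum, Polynomial.map_pow, map_X]
        using geo_dvd ha hd h)
  refine ⟨U, hma.of_mul_monic_left (hU ▸ hmd), ?_⟩
  simpa only [Polynomial.map_prod, Polynomial.map_sum, Polynomial.map_pow, map_X,
    Polynomial.map_mul] using congrArg (Polynomial.map (Int.castRingHom ℂ)) hU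

/-- Regular pairs of positive dimension: `∑ d - ∑ a` itself lies in the semigroup. -/
theorem reg_edge (S : AddSubmonoid ℕ) (ha : ∀ i ∈ s, 0 < a i) (hd : ∀ j ∈ t, 0 < d j)
    (haS : ∀ i ∈ s, a i ∈ S) (hdS : ∀ j ∈ t, d j ∈ S) (hc : t.card + 1 < s.card)
    (h : ∀ q, 1 < q → cnt s a q ≤ cnt t d q) {k : ℕ} (hk : ∑ j ∈ t, d j ≤ k + ∑ i ∈ s, a i) :
    k ∈ S := by
  rcases hk.lt_or_eq with hk | hk
  · exact reg S ha hd haS hdS (by omega) h hk
  by_cases hS : 1 ∈ S
  · simpa using S.nsmul_mem hS k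
  have h0 := edge_cnt ha hd (fun i hi e => hS (e ▸ haS i hi)) (fun j hj e => hS (e ▸ hdS j hj)) h
  obtain ⟨U, hm, hU⟩ := geo_int ha hd h
  obtain ⟨D, hD⟩ : ∃ D, s.card = t.card + (D + 1) := ⟨s.card - t.card - 1, by omega⟩
  have hane : (∏ i ∈ s, ∑ l ∈ range (a i), (X : ℂ[X]) ^ l) ≠ 0 :=
    prod_ne_zero_iff.2 fun i hi => regB_ne (ha i hi)
  have hdeg : U.natDegree = k + (D + 1) := by
    have h1 := regB_degs hd
    have h2 := regB_degs ha
    rw [hU, natDegree_mul hane (hm.map _).ne_zero, hm.natDegree_map] at h1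
    omega
  have hroot : ∀ z, (U.map (Int.castRingHom ℂ)).eval z = 0 → ‖z‖ = 1 ∧ z ≠ 1 := by
    intro z hz
    have h1 := congrArg (eval z) hU
    rw [eval_mul, hz, mul_zero, eval_prod, prod_eq_zero_iff] at h1
    obtain ⟨j, hj, h2⟩ := h1
    refine regB_root (hd j hj) ?_
    simpa [eval_finsetSum] using h2
  have hone : (U.map (Int.castRingHom ℂ)).eval 1 ≠ -1 := fun e => by
    have h1 := congrArg (eval 1) hU
    rw [eval_mul, e] at h1
    simp only [eval_prod, eval_finsetSum, eval_pow, eval_X, one_pow, sum_const, card_range,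
      nsmul_eq_mul, mul_one, mul_neg] at h1
    have h2 : ∏ j ∈ t, d j + ∏ i ∈ s, a i = 0 := by
      exact_mod_cast (eq_neg_iff_add_eq_zero.1 h1 : ∏ j ∈ t, (d j : ℂ) + ∏ i ∈ s, (a i : ℂ) = 0)
    have h3 := prod_pos hd
    omega
  have hcoe : ∏ j ∈ t, ∑ l ∈ range (d j), (PowerSeries.X : PowerSeries ℂ) ^ l =
      (∏ i ∈ s, ∑ l ∈ range (a i), (PowerSeries.X : PowerSeries ℂ) ^ l) *
        (U.map (Int.castRingHom ℂ) : PowerSeries ℂ) := by
    have h1 := congrArg (coeToPowerSeries.ringHom (R := ℂ)) hU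
    simpa only [map_mul, map_prod, map_sum, map_pow, coeToPowerSeries.ringHom_apply, coe_X]
      using h1
  refine supp S ha haS hdS ?_ (rv_edge U hm hroot D k (by omega) (by omega) hdeg hone)
  rw [regB_prod, regB_prod, hcoe, hD,
    ← PowerSeries.one_sub_pow_add_mul_invOneSubPow_val_eq_one_sub_pow ℂ t.card (D + 1)]
  ring

/-- In positive dimension the bound `k ≥ ∑ d - ∑ a` suffices. -/
theorem num_edge (k : ℕ) : ∀ (a : ι → ℕ) (d : κ → ℕ) (S : AddSubmonoid ℕ),
    (∀ i ∈ s, 0 < a i) → (∀ j ∈ t, 0 < d j) → (∀ i ∈ s, a i ∈ S) → (∀ j ∈ t, d j ∈ S) →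
    t.card + 1 < s.card → (∀ q, cnt t d q < cnt s a q → q ∣ k) →
    ∑ j ∈ t, d j ≤ k + ∑ i ∈ s, a i → k ∈ S := by
  induction k using Nat.strong_induction_on with
  | _ k ih =>
  intro a d S ha hd haS hdS hc hM hk
  by_cases hreg : ∀ q, 1 < q → cnt s a q ≤ cnt t d q
  · exact reg_edge S ha hd haS hdS hc hreg hk
  push Not at hreg
  obtain ⟨q₀, hq₀, hq₁⟩ := hreg
  obtain ⟨p, hp, q₁, rfl⟩ := Nat.exists_prime_and_dvd hq₀.ne'
  obtain ⟨m, rfl⟩ := dvd_of_mul_right_dvd (hM _ hq₁)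
  rcases Nat.eq_zero_or_pos m with rfl | hm
  · exact S.zero_mem
  have hdv : ∀ q, cnt t d (p * q) < cnt s a (p * q) → q ∣ m := fun q h =>
    Nat.dvd_of_mul_dvd_mul_left hp.pos (hM _ h)
  rw [num_sum1 s a p, num_sum1 t d p] at hk
  have ra := num_red s a ha haS hp.pos
  have rd := num_red t d hd hdS hp.pos
  change m ∈ S.comap (AddMonoidHom.mulLeft p)
  rcases lt_or_ge (∑ i ∈ s.filter fun i => ¬ p ∣ a i, a i)
    (∑ j ∈ t.filter fun j => ¬ p ∣ d j, d j) with hB | hB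
  · refine num m _ _ (s.filter fun i => p ∣ a i) (t.filter fun j => p ∣ d j) (fun i => a i / p)
      (fun j => d j / p) _ m (fun i hi => ?_) (fun j hj => ?_) (fun i hi => ?_) (fun j hj => ?_)
      ⟨q₁, ?_⟩ (fun q hq => ?_) dvd_rfl ?_
    · simpa only [if_pos (mem_filter.1 hi).2] using (ra i (mem_filter.1 hi).1).1
    · simpa only [if_pos (mem_filter.1 hj).2] using (rd j (mem_filter.1 hj).1).1
    · simpa only [if_pos (mem_filter.1 hi).2] using (ra i (mem_filter.1 hi).1).2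
    · simpa only [if_pos (mem_filter.1 hj).2] using (rd j (mem_filter.1 hj).1).2
    · rwa [num_cnt1, num_cnt1]
    · rw [num_cnt1, num_cnt1] at hq
      exact hdv q hq
    · refine lt_of_mul_lt_mul_left (a := p) ?_ (Nat.zero_le p)
      rw [mul_add]
      omega
  · refine ih m (lt_mul_of_one_lt_left hm hp.one_lt) _ _ _ (fun i hi => (ra i hi).1)
      (fun j hj => (rd j hj).1) (fun i hi => (ra i hi).2) (fun j hj => (rd j hj).2) hc
      (fun q hq => ?_) ?_
    · by_cases h : p ∣ q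
      · rw [num_cnt2 t d h, num_cnt2 s a h] at hq
        exact hdv q hq
      · rw [num_cnt3 t d hp h, num_cnt3 s a hp h] at hq
        exact ((Nat.Prime.coprime_iff_not_dvd hp).2 h).symm.dvd_of_dvd_mul_left (hM _ hq)
    · rw [sum_ite, sum_ite]
      refine Nat.le_of_mul_le_mul_left ?_ hp.pos
      obtain ⟨u, rfl⟩ := Nat.exists_eq_add_of_le' hp.pos
      have h2 := Nat.mul_le_mul_left u hB
      simp only [mul_add, add_mul] at hk ⊢
      omega

end Pool.Agent.Lib.MP_bc213e_ag.WCI
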