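import Pool.Agent.Lib.MP_bc213e_ag.WCI.Main

/-! A by-product of the numerical step; it is not a hand-in. -/

namespace Pool.Agent.Lib.MP_bc213e_ag.WCI

/-- The Frobenius number conjecture of Pizzato, Sano and Tasin for regular pairs whose degrees lie
in the semigroup of the weights. -/
theorem frobenius {n c : ℕ} (a : Fin (n + 1) → ℕ) (d : Fin c → ℕ) (ha : ∀ i, 0 < a i)
    (hd : ∀ j, 0 < d j) (hc : c ≤ n)
    (hreg : ∀ q, 1 < q → (Finset.univ.filter fun i => q ∣ a i).card ≤
      (Finset.univ.filter fun j => q ∣ d j).card)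
    (hS : ∀ j, d j ∈ AddSubmonoid.closure (Set.range a)) (k : ℕ)
    (hδ : ∑ j, d j < k + ∑ i, a i) : k ∈ AddSubmonoid.closure (Set.range a) :=
  reg (s := Finset.univ) (t := Finset.univ) _ (fun i _ => ha i) (fun j _ => hd j)
    (fun i _ => AddSubmonoid.subset_closure (Set.mem_range_self i)) (fun j _ => hS j)
    (by simpa using Nat.lt_succ_of_le hc) hreg hδ

end Pool.Agent.Lib.MP_bc213e_ag.WCI
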