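import Mathlib

/-! Points on the strata of a weighted complete intersection. -/

namespace Pool.Agent.Lib.MP_bc213e_ag.WCI

open MvPolynomial Finset

variable {N c : ℕ}

/-- Some monomial of `g` does not vanish at `x`. -/
theorem van {a : Fin N → ℕ} {g : MvPolynomial (Fin N) ℂ} {e : ℕ} {x : Fin N → ℂ}
    (T : AddSubmonoid ℕ) (hg : g.IsWeightedHomogeneous a e) (hx : ∀ i, x i ≠ 0 → a i ∈ T)
    (h : eval x g ≠ 0) : e ∈ T := by
  rw [eval_eq] at h
  obtain ⟨m, -, hm⟩ := Finset.exists_ne_zero_of_sum_ne_zero h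
  rw [← hg (left_ne_zero_of_mul hm), Finsupp.weight_apply, Finsupp.sum]
  refine T.sum_mem fun i hi => T.nsmul_mem (hx i fun h0 => ?_) _
  refine Finset.prod_ne_zero_iff.1 (right_ne_zero_of_mul hm) i hi ?_
  rw [h0, zero_pow (Finsupp.mem_support_iff.1 hi)]

theorem van_dvd {a : Fin N → ℕ} {g : MvPolynomial (Fin N) ℂ} {e q : ℕ} {x : Fin N → ℂ}
    (hg : g.IsWeightedHomogeneous a e) (hx : ∀ i, x i ≠ 0 → q ∣ a i) (h : eval x g ≠ 0) :
    q ∣ e :=
  van ⟨⟨{e | q ∣ e}, dvd_add⟩, dvd_zero q⟩ hg hx h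

/- The kernel of the map that kills the first `k` variables has height at least `k`. -/
theorem geoB_chain (k : ℕ) (hk : k ≤ N) : (k : ℕ∞) ≤ (RingHom.ker
    (aeval (fun i : Fin N => if i.val < k then 0 else X i) :
      MvPolynomial (Fin N) ℂ →ₐ[ℂ] MvPolynomial (Fin N) ℂ)).height := by
  induction k with
  | zero => simp
  | succ k ih =>
    set f : MvPolynomial (Fin N) ℂ →ₐ[ℂ] MvPolynomial (Fin N) ℂ :=
      aeval (fun i : Fin N => if i.val < k then 0 else X i) with hf
    set g : MvPolynomial (Fin N) ℂ →ₐ[ℂ] MvPolynomial (Fin N) ℂ :=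
      aeval (fun i : Fin N => if i.val < k + 1 then 0 else X i) with hg
    have hp : (RingHom.ker f).IsPrime := RingHom.ker_isPrime f
    have hq : (RingHom.ker g).IsPrime := RingHom.ker_isPrime g
    have hgf : g.comp f = g := by
      refine MvPolynomial.algHom_ext fun i => ?_
      by_cases h : i.val < k
      · have h' : ¬ k < i.val := by omega
        simp [hf, hg, h, h']
      · simp [hf, h]
    have hlt : RingHom.ker f < RingHom.ker g := by
      refine lt_of_le_of_ne (fun p hp => ?_) fun e => ?_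
      · rw [RingHom.mem_ker] at hp ⊢
        rw [← hgf, AlgHom.comp_apply, hp, map_zero]
      · have h1 : (X ⟨k, hk⟩ : MvPolynomial (Fin N) ℂ) ∈ RingHom.ker g := by
          simp [RingHom.mem_ker, hg]
        rw [← e, RingHom.mem_ker] at h1
        simp [hf] at h1
    have h2 := Ideal.height_add_one_le_of_lt_of_isPrime hlt
    have h3 := ih (by omega)
    push_cast
    exact le_trans (by gcongr) h2

theorem geoB_height :
    (N : ℕ∞) ≤ (vanishingIdeal ℂ {(0 : Fin N → ℂ)} : Ideal (MvPolynomial (Fin N) ℂ)).height := by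
  refine (geoB_chain N le_rfl).trans (Ideal.height_mono fun p hp => ?_)
  rw [RingHom.mem_ker] at hp
  rw [mem_vanishingIdeal_singleton_iff]
  have h : (aeval (0 : Fin N → ℂ) : MvPolynomial (Fin N) ℂ →ₐ[ℂ] ℂ).comp
      (aeval (fun i : Fin N => if i.val < N then 0 else X i)) = aeval (0 : Fin N → ℂ) := by
    refine MvPolynomial.algHom_ext fun i => ?_
    simp
  rw [← h, AlgHom.comp_apply, hp, map_zero]

/- Otherwise the radical of the span is the maximal ideal of the origin
(`vanishingIdeal_zeroLocus_eq_radical`), of height `N`, against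
`Ideal.height_le_card_of_mem_minimalPrimes_span_finset`. -/
theorem exists_zero (T : Finset (MvPolynomial (Fin N) ℂ)) (hT : T.card < N)
    (h0 : ∀ g ∈ T, eval 0 g = 0) : ∃ x : Fin N → ℂ, x ≠ 0 ∧ ∀ g ∈ T, eval x g = 0 := by
  by_contra hcon
  have hz : zeroLocus ℂ (Ideal.span (T : Set (MvPolynomial (Fin N) ℂ))) = {0} := by
    rw [zeroLocus_span]
    ext x
    constructor
    · intro hx
      by_contra hx0
      exact hcon ⟨x, hx0, fun g hg => by simpa [aeval_eq_eval] using hx g hg⟩
    · rintro rfl g hg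
      rw [aeval_eq_eval]
      exact h0 g hg
  have hr := vanishingIdeal_zeroLocus_eq_radical (K := ℂ)
    (Ideal.span (T : Set (MvPolynomial (Fin N) ℂ)))
  rw [hz] at hr
  have hm : vanishingIdeal ℂ {(0 : Fin N → ℂ)} ∈
      (Ideal.span (T : Set (MvPolynomial (Fin N) ℂ))).minimalPrimes := by
    rw [← Ideal.radical_minimalPrimes, ← hr, Ideal.minimalPrimes_eq_subsingleton_self]
    rfl
  have h1 := geoB_height.trans (Ideal.height_le_card_of_mem_minimalPrimes_span_finset hm)
  exact absurd (Nat.cast_le.1 h1) (not_le.2 hT)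

end Pool.Agent.Lib.MP_bc213e_ag.WCI
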