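import Pool.Agent.Lib.MP_bc213e_ag.WCI.Defs
import Pool.Agent.Lib.MP_bc213e_ag.WCI.Edge
import Pool.Agent.Lib.MP_bc213e_ag.WCI.Cone

/-! Effective nonvanishing for weighted complete intersections. -/

namespace Pool.Agent.Lib.MP_bc213e_ag.WCI

open MvPolynomial Finset

variable {N c : ℕ} {a : Fin N → ℕ} {d : Fin c → ℕ} {f : Fin c → MvPolynomial (Fin N) ℂ}

theorem stratum (hd : ∀ j, 0 < d j) (hf : ∀ j, (f j).IsWeightedHomogeneous a (d j))
    (S : AddSubmonoid ℕ) [DecidablePred (· ∈ S)] {q : ℕ}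
    (h : cnt (univ.filter fun j => d j ∈ S) d q < cnt (univ.filter fun i => a i ∈ S) a q) :
    ∃ x, OnCone f x ∧ ∀ i, x i ≠ 0 → q ∣ a i := by
  classical
  have hc := card_filter_add_card_filter_not (s := (univ : Finset (Fin N)))
    fun i => a i ∈ S ∧ q ∣ a i
  rw [card_univ, Fintype.card_fin] at hc
  obtain ⟨x, hx, h0⟩ := exists_zero ((univ.filter fun j => d j ∈ S ∧ q ∣ d j).image f ∪
    (univ.filter fun i => ¬ (a i ∈ S ∧ q ∣ a i)).image X) (by
      refine (card_union_le _ _).trans_lt ((add_le_add card_image_le card_image_le).trans_lt ?_)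
      unfold cnt at h
      rw [filter_filter, filter_filter] at h
      omega) (by
      intro g hg
      rcases mem_union.1 hg with hg | hg
      · obtain ⟨j, -, rfl⟩ := mem_image.1 hg
        by_contra hn
        exact (hd j).ne' (zero_dvd_iff.1 (van_dvd (q := 0) (hf j) (fun i hi => (hi rfl).elim) hn))
      · obtain ⟨i, -, rfl⟩ := mem_image.1 hg
        simp)
  have hq : ∀ i, x i ≠ 0 → a i ∈ S ∧ q ∣ a i := fun i hi => by
    by_contra hn
    exact hi (by
      simpa using h0 _ (mem_union_right _ (mem_image_of_mem X (mem_filter.2 ⟨mem_univ i, hn⟩))))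
  refine ⟨x, ⟨hx, fun j => ?_⟩, fun i hi => (hq i hi).2⟩
  by_contra hn
  exact hn (h0 _ (mem_union_left _ (mem_image_of_mem f (mem_filter.2 ⟨mem_univ j,
    van S (hf j) (fun i hi => (hq i hi).1) hn, van_dvd (hf j) (fun i hi => (hq i hi).2) hn⟩))))

theorem main (ha : ∀ i, 0 < a i) (hd : ∀ j, 0 < d j) (hc : c < N)
    (hf : ∀ j, (f j).IsWeightedHomogeneous a (d j)) (hp : (Ideal.span (Set.range f)).IsPrime)
    {k : ℕ} (hk : Cartier a f k) (hδ : ∑ j, d j ≤ k + ∑ i, a i)
    (h0 : c + 1 = N → ∑ j, d j < k + ∑ i, a i) :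
    ∃ g : MvPolynomial (Fin N) ℂ, g.IsWeightedHomogeneous a k ∧ g ∉ Ideal.span (Set.range f) := by
  classical
  let S : AddSubmonoid ℕ :=
    { carrier := {e | ∃ g : MvPolynomial (Fin N) ℂ,
        g.IsWeightedHomogeneous a e ∧ g ∉ Ideal.span (Set.range f)}
      zero_mem' := ⟨1, isWeightedHomogeneous_one ℂ a, (Ideal.ne_top_iff_one _).1 hp.ne_top⟩
      add_mem' := fun ⟨g, g1, g2⟩ ⟨h, h1, h2⟩ =>
        ⟨g * h, g1.mul h1, fun e => (hp.mem_or_mem e).elim g2 h2⟩ }
  have hb := cone_sum (a := a) (d := d) (· ∉ S) fun v hv => cone_le hf hd fun i hi => by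
    by_contra hn
    exact hv ⟨X i, hi ▸ isWeightedHomogeneous_X ℂ a i, hn⟩
  have hM : ∀ q, cnt (univ.filter fun j => d j ∈ S) d q < cnt (univ.filter fun i => a i ∈ S) a q →
      q ∣ k := fun q h => by
    obtain ⟨x, hx, hxq⟩ := stratum hd hf S h
    obtain ⟨m, g, g', g1, g2, g3, g4⟩ := hk x hx
    exact (Nat.dvd_add_left (van_dvd g2 hxq g4)).1 (van_dvd g1 hxq g3)
  have h1 := hb fun _ => 1
  have h2 := card_filter_add_card_filter_not (s := (univ : Finset (Fin N))) fun i => a i ∈ S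
  have h3 := card_filter_add_card_filter_not (s := (univ : Finset (Fin c))) fun j => d j ∈ S
  have h4 := hb fun v => v
  rw [← card_eq_sum_ones, ← card_eq_sum_ones] at h1
  rw [card_univ, Fintype.card_fin] at h2 h3
  rw [← sum_filter_add_sum_filter_not univ fun j => d j ∈ S,
    ← sum_filter_add_sum_filter_not univ fun i => a i ∈ S] at hδ h0
  rcases (Nat.succ_le_of_lt hc).lt_or_eq with h5 | h5
  · exact num_edge (s := univ.filter fun i => a i ∈ S) (t := univ.filter fun j => d j ∈ S) k a d S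
      (fun i _ => ha i) (fun j _ => hd j) (fun i hi => (mem_filter.1 hi).2)
      (fun j hj => (mem_filter.1 hj).2) (by omega) hM (by omega)
  · have h6 := h0 h5
    exact num k _ _ (univ.filter fun i => a i ∈ S) (univ.filter fun j => d j ∈ S) a d S k
      (fun i _ => ha i) (fun j _ => hd j) (fun i hi => (mem_filter.1 hi).2)
      (fun j hj => (mem_filter.1 hj).2) ⟨1, by rw [num_one, num_one]; omega⟩ hM dvd_rfl (by omega)

end Pool.Agent.Lib.MP_bc213e_ag.WCI
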