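import Pool.Agent.Lib.MP_bc213e_ag.WCI.Reg

/-! Reduction to regular pairs. -/

namespace Pool.Agent.Lib.MP_bc213e_ag.WCI

open Finset

section

variable {ι : Type} (s : Finset ι) (a : ι → ℕ) {p q : ℕ}

theorem num_cnt1 (q : ℕ) :
    cnt (s.filter fun i => p ∣ a i) (fun i => a i / p) q = cnt s a (p * q) := by
  unfold cnt
  rw [filter_filter]
  refine congrArg card (filter_congr fun i _ => ⟨fun h => ?_, fun h => ?_⟩)
  · exact (Nat.dvd_div_iff_mul_dvd h.1).1 h.2
  · exact ⟨dvd_of_mul_right_dvd h, (Nat.dvd_div_iff_mul_dvd (dvd_of_mul_right_dvd h)).2 h⟩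

theorem num_cnt2 (hpq : p ∣ q) :
    cnt s (fun i => if p ∣ a i then a i / p else a i) q = cnt s a (p * q) := by
  refine congrArg card (filter_congr fun i _ => ?_)
  by_cases h : p ∣ a i
  · simp only [if_pos h]
    exact Nat.dvd_div_iff_mul_dvd h
  · simp only [if_neg h]
    exact iff_of_false (fun e => h (hpq.trans e)) fun e => h (dvd_of_mul_right_dvd e)

theorem num_cnt3 (hp : p.Prime) (hpq : ¬ p ∣ q) :
    cnt s (fun i => if p ∣ a i then a i / p else a i) q = cnt s a q := by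
  refine congrArg card (filter_congr fun i _ => ?_)
  by_cases h : p ∣ a i
  · simp only [if_pos h]
    rw [Nat.dvd_div_iff_mul_dvd h]
    exact ⟨dvd_of_mul_left_dvd, ((Nat.Prime.coprime_iff_not_dvd hp).2 hpq).mul_dvd_of_dvd_of_dvd h⟩
  · simp only [if_neg h]

theorem num_sum1 (p : ℕ) : ∑ i ∈ s, a i =
    p * ∑ i ∈ s.filter fun i => p ∣ a i, a i / p + ∑ i ∈ s.filter fun i => ¬ p ∣ a i, a i := by
  rw [← sum_filter_add_sum_filter_not s fun i => p ∣ a i, mul_sum]
  congr 1
  exact sum_congr rfl fun i hi => (Nat.mul_div_cancel' (mem_filter.1 hi).2).symm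

theorem num_one : cnt s a 1 = s.card := by simp [cnt]

theorem num_red {S : AddSubmonoid ℕ} (ha : ∀ i ∈ s, 0 < a i) (hS : ∀ i ∈ s, a i ∈ S)
    (hp : 0 < p) (i : ι) (hi : i ∈ s) : 0 < (if p ∣ a i then a i / p else a i) ∧
      (if p ∣ a i then a i / p else a i) ∈ S.comap (AddMonoidHom.mulLeft p) := by
  split_ifs with h
  · refine ⟨Nat.div_pos (Nat.le_of_dvd (ha i hi) h) hp, ?_⟩
    change p * (a i / p) ∈ S
    rw [Nat.mul_div_cancel' h]
    exact hS i hi
  · exact ⟨ha i hi, S.nsmul_mem (hS i hi) p⟩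

theorem num_zero (ha : ∀ i ∈ s, 0 < a i) : cnt s a 0 = 0 :=
  card_eq_zero.2 (filter_eq_empty_iff.2 fun i hi h => (ha i hi).ne' (zero_dvd_iff.1 h))

theorem num_disj {κ : Type} (t : Finset κ) (d : κ → ℕ) (q : ℕ) :
    cnt (s.disjSum t) (Sum.elim a d) q = cnt s a q + cnt t d q := by
  unfold cnt
  rw [card_filter, card_filter, card_filter, sum_disjSum]
  rfl

theorem num_up1 (hp : p.Prime) (hpq : ¬ p ∣ q) :
    cnt s (fun i => if p ∣ a i then a i else p * a i) q = cnt s a q := by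
  refine congrArg card (filter_congr fun i _ => ?_)
  by_cases h : p ∣ a i
  · simp only [if_pos h]
  · simp only [if_neg h]
    exact ((Nat.Prime.coprime_iff_not_dvd hp).2 hpq).symm.dvd_mul_left

theorem num_up2 (hp : p.Prime) (hpq : ¬ p ∣ q) :
    cnt s (fun i => if p ∣ a i then a i else p * a i) (p * q) = cnt s a q := by
  refine congrArg card (filter_congr fun i _ => ?_)
  by_cases h : p ∣ a i
  · simp only [if_pos h]
    exact ⟨dvd_of_mul_left_dvd, ((Nat.Prime.coprime_iff_not_dvd hp).2 hpq).mul_dvd_of_dvd_of_dvd h⟩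
  · simp only [if_neg h]
    exact Nat.mul_dvd_mul_iff_left hp.pos

theorem num_up3 (hp : p.Prime) (hpq : p ∣ q) :
    cnt s (fun i => if p ∣ a i then a i else p * a i) (p * q) = cnt s a (p * q) := by
  refine congrArg card (filter_congr fun i _ => ?_)
  by_cases h : p ∣ a i
  · simp only [if_pos h]
  · simp only [if_neg h]
    exact iff_of_false (fun e => h (hpq.trans ((Nat.mul_dvd_mul_iff_left hp.pos).1 e)))
      fun e => h (dvd_of_mul_right_dvd e)

theorem num_low1 (hp : p.Prime) (hpq : ¬ p ∣ q) :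
    cnt (s.filter fun i => ¬ p ∣ a i) a q + cnt s a (p * q) = cnt s a q := by
  unfold cnt
  rw [← card_filter_add_card_filter_not (s := s.filter fun i => q ∣ a i) fun i => p ∣ a i,
    filter_filter, filter_filter, filter_filter, add_comm]
  congr 1
  · refine congrArg card (filter_congr fun i _ => ⟨fun h => ?_, fun h => ?_⟩)
    · exact ⟨dvd_of_mul_left_dvd h, dvd_of_mul_right_dvd h⟩
    · exact ((Nat.Prime.coprime_iff_not_dvd hp).2 hpq).mul_dvd_of_dvd_of_dvd h.2 h.1
  · exact congrArg card (filter_congr fun i _ => and_comm)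

theorem num_low2 (p q : ℕ) : cnt (s.filter fun i => ¬ p ∣ a i) a (p * q) = 0 :=
  card_eq_zero.2 (filter_eq_empty_iff.2 fun _ hi h =>
    (mem_filter.1 hi).2 (dvd_of_mul_right_dvd h))

theorem num_upm {S : AddSubmonoid ℕ} (ha : ∀ i ∈ s, 0 < a i) (hS : ∀ i ∈ s, a i ∈ S)
    (hp : 0 < p) (i : ι) (hi : i ∈ s) : 0 < (if p ∣ a i then a i else p * a i) ∧
      (if p ∣ a i then a i else p * a i) ∈ S := by
  split_ifs with h
  · exact ⟨ha i hi, hS i hi⟩
  · exact ⟨Nat.mul_pos hp (ha i hi), S.nsmul_mem (hS i hi) p⟩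

end

/-- Call `q` a pole if it divides more of the `a i` than of the `d j`. If there is a pole and all
poles divide `k`, then `k > ∑ d - ∑ a` lies in every semigroup that holds the `a i` and `d j`. -/
theorem num (L : ℕ) : ∀ (ι κ : Type) (s : Finset ι) (t : Finset κ) (a : ι → ℕ) (d : κ → ℕ)
    (S : AddSubmonoid ℕ) (k : ℕ), (∀ i ∈ s, 0 < a i) → (∀ j ∈ t, 0 < d j) →
    (∀ i ∈ s, a i ∈ S) → (∀ j ∈ t, d j ∈ S) → (∃ q, cnt t d q < cnt s a q) →
    (∀ q, cnt t d q < cnt s a q → q ∣ L) → L ∣ k →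
    ∑ j ∈ t, d j < k + ∑ i ∈ s, a i → k ∈ S := by
  induction L using Nat.strong_induction_on with
  | _ L ih =>
  intro ι κ s t a d S k ha hd haS hdS hc hM hL hk
  by_cases hreg : ∀ q, 1 < q → cnt s a q ≤ cnt t d q
  · obtain ⟨q, hq⟩ := hc
    refine reg S ha hd haS hdS ?_ hreg hk
    rcases Nat.lt_trichotomy q 1 with h | rfl | h
    · rw [Nat.lt_one_iff.1 h, num_zero s a ha] at hq
      omega
    · simpa only [num_one] using hq
    · exact absurd hq (not_lt.2 (hreg q h))
  push Not at hreg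
  obtain ⟨q₀, hq₀, hq₁⟩ := hreg
  obtain ⟨p, hp, q₁, rfl⟩ := Nat.exists_prime_and_dvd hq₀.ne'
  obtain ⟨L, rfl⟩ := dvd_of_mul_right_dvd (hM _ hq₁)
  obtain ⟨m, rfl⟩ := dvd_of_mul_right_dvd hL
  have hLm : L ∣ m := Nat.dvd_of_mul_dvd_mul_left hp.pos hL
  rcases Nat.eq_zero_or_pos L with rfl | hm
  · rw [zero_dvd_iff.1 hLm]
    exact S.zero_mem
  have hlt : L < p * L := lt_mul_of_one_lt_left hm hp.one_lt
  have hdv : ∀ q, cnt t d (p * q) < cnt s a (p * q) → q ∣ L := fun q h =>
    Nat.dvd_of_mul_dvd_mul_left hp.pos (hM _ h)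
  have hk₀ := hk
  rw [num_sum1 s a p, num_sum1 t d p] at hk
  have ra := num_red s a ha haS hp.pos
  have rd := num_red t d hd hdS hp.pos
  rcases le_total (∑ i ∈ s.filter fun i => ¬ p ∣ a i, a i)
    (∑ j ∈ t.filter fun j => ¬ p ∣ d j, d j) with hB | hB
  · change m ∈ S.comap (AddMonoidHom.mulLeft p)
    refine ih L hlt _ _ (s.filter fun i => p ∣ a i) (t.filter fun j => p ∣ d j) (fun i => a i / p)
      (fun j => d j / p) _ m (fun i hi => ?_) (fun j hj => ?_) (fun i hi => ?_) (fun j hj => ?_)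
      ⟨q₁, ?_⟩ (fun q hq => ?_) hLm ?_
    · simpa only [if_pos (mem_filter.1 hi).2] using (ra i (mem_filter.1 hi).1).1
    · simpa only [if_pos (mem_filter.1 hj).2] using (rd j (mem_filter.1 hj).1).1
    · simpa only [if_pos (mem_filter.1 hi).2] using (ra i (mem_filter.1 hi).1).2
    · simpa only [if_pos (mem_filter.1 hj).2] using (rd j (mem_filter.1 hj).1).2
    · rwa [num_cnt1, num_cnt1]
    · rw [num_cnt1, num_cnt1] at hq
      exact hdv q hq
    · refine lt_of_mul_lt_mul_left (a := p) ?_ (Nat.zero_le p)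
      rw [mul_add]
      omega
  by_cases h3 : ∃ q, cnt t (fun j => if p ∣ d j then d j / p else d j) q <
      cnt s (fun i => if p ∣ a i then a i / p else a i) q
  · change m ∈ S.comap (AddMonoidHom.mulLeft p)
    refine ih L hlt _ _ s t _ _ _ m (fun i hi => (ra i hi).1) (fun j hj => (rd j hj).1)
      (fun i hi => (ra i hi).2) (fun j hj => (rd j hj).2) h3 (fun q hq => ?_) hLm ?_
    · by_cases h : p ∣ q
      · rw [num_cnt2 t d h, num_cnt2 s a h] at hq
        exact hdv q hq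
      · rw [num_cnt3 t d hp h, num_cnt3 s a hp h] at hq
        exact ((Nat.Prime.coprime_iff_not_dvd hp).2 h).symm.dvd_of_dvd_mul_left (hM _ hq)
    · rw [sum_ite, sum_ite]
      by_contra hn
      have h1 := Nat.mul_le_mul_left p (not_lt.1 hn)
      obtain ⟨u, rfl⟩ := Nat.exists_eq_add_of_le' hp.pos
      have h2 := Nat.mul_le_mul_left u hB
      simp only [mul_add, add_mul] at h1 hk
      omega
  push Not at h3
  have h4 : ∀ q, p ∣ q → cnt s a (p * q) ≤ cnt t d (p * q) := fun q h => by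
    simpa only [num_cnt2 t d h, num_cnt2 s a h] using h3 q
  have h5 : ∀ q, ¬ p ∣ q → cnt s a q ≤ cnt t d q := fun q h => by
    simpa only [num_cnt3 t d hp h, num_cnt3 s a hp h] using h3 q
  have ua := num_upm s a ha haS hp.pos
  have ud := num_upm t d hd hdS hp.pos
  refine ih L hlt _ _ (s.disjSum (t.filter fun j => ¬ p ∣ d j))
    (t.disjSum (s.filter fun i => ¬ p ∣ a i))
    (Sum.elim (fun i => if p ∣ a i then a i else p * a i) d)
    (Sum.elim (fun j => if p ∣ d j then d j else p * d j) a) S _ ?_ ?_ ?_ ?_ ⟨q₁, ?_⟩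
    (fun q hq => ?_) (hLm.mul_left p) ?_
  · rintro (i | j) h
    · exact (ua i (inl_mem_disjSum.1 h)).1
    · exact hd j (mem_filter.1 (inr_mem_disjSum.1 h)).1
  · rintro (j | i) h
    · exact (ud j (inl_mem_disjSum.1 h)).1
    · exact ha i (mem_filter.1 (inr_mem_disjSum.1 h)).1
  · rintro (i | j) h
    · exact (ua i (inl_mem_disjSum.1 h)).2
    · exact hdS j (mem_filter.1 (inr_mem_disjSum.1 h)).1
  · rintro (j | i) h
    · exact (ud j (inl_mem_disjSum.1 h)).2
    · exact haS i (mem_filter.1 (inr_mem_disjSum.1 h)).1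
  · have h : ¬ p ∣ q₁ := fun e => absurd hq₁ (not_lt.2 (h4 q₁ e))
    rw [num_disj, num_disj, num_up1 t d hp h, num_up1 s a hp h]
    have e1 := num_low1 s a hp h
    have e2 := num_low1 t d hp h
    omega
  · rw [num_disj, num_disj] at hq
    by_cases h : p ∣ q
    · obtain ⟨r, rfl⟩ := h
      rw [num_low2, num_low2] at hq
      by_cases h' : p ∣ r
      · rw [num_up3 t d hp h', num_up3 s a hp h'] at hq
        exact absurd hq (not_lt.2 (h4 r h'))
      · rw [num_up2 t d hp h', num_up2 s a hp h'] at hq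
        exact absurd hq (not_lt.2 (h5 r h'))
    · rw [num_up1 t d hp h, num_up1 s a hp h] at hq
      have e1 := num_low1 s a hp h
      have e2 := num_low1 t d hp h
      exact hdv q (by omega)
  · rw [sum_disjSum, sum_disjSum]
    simp only [Sum.elim_inl, Sum.elim_inr]
    rw [sum_ite, sum_ite, ← mul_sum, ← mul_sum]
    rw [← sum_filter_add_sum_filter_not s fun i => p ∣ a i,
      ← sum_filter_add_sum_filter_not t fun j => p ∣ d j] at hk₀
    obtain ⟨u, rfl⟩ := Nat.exists_eq_add_of_le' hp.two_le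
    have h2 := Nat.mul_le_mul_left u hB
    simp only [add_mul] at hk₀ ⊢
    omega

end Pool.Agent.Lib.MP_bc213e_ag.WCI
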