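import Mathlib

/-! Coefficients of `U / (1 - t) ^ D` when all roots of `U` lie on the unit circle. -/

namespace Pool.Agent.Lib.MP_bc213e_ag.WCI

open Polynomial Finset

/- Induction on the degree: `Complex.exists_root`, `v = (X - C z) * w`;
`‖x - 1 - z‖ < ‖x - z‖` because `re (x - z) > 1 / 2`. -/
theorem shift_lt (v : ℂ[X]) {ρ : ℝ} (hv : ∀ z, v.eval z = 0 → z.re ≤ ρ) {x : ℂ}
    (hx : ρ + 1 / 2 < x.re) : ‖v.eval (x - 1)‖ < ‖v.eval x‖ ∨ v.eval (x - 1) = v.eval x := by
  induction hn : v.natDegree using Nat.strong_induction_on generalizing v with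
  | _ n ih =>
    rcases Nat.eq_zero_or_pos n with h0 | h0
    · right
      rw [eq_C_of_natDegree_eq_zero (hn.trans h0), eval_C, eval_C]
    · left
      obtain ⟨z, hz⟩ := Complex.exists_root (natDegree_pos_iff_degree_pos.1 (hn ▸ h0))
      obtain ⟨w, rfl⟩ := dvd_iff_isRoot.2 hz
      have hw : ∀ y, w.eval y = 0 → y.re ≤ ρ := fun y hy => hv y (by rw [eval_mul, hy, mul_zero])
      have hw0 : w.eval x ≠ 0 := fun e => by linarith [hw x e]
      have h1 : w.natDegree < n := by
        rw [← hn, natDegree_mul (X_sub_C_ne_zero z) (fun e => hw0 (by rw [e, eval_zero])),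
          natDegree_X_sub_C]
        omega
      have h2 : ‖w.eval (x - 1)‖ ≤ ‖w.eval x‖ :=
        (ih _ h1 w hw rfl).elim le_of_lt fun e => e ▸ le_rfl
      have h3 : ‖x - 1 - z‖ < ‖x - z‖ := by
        have h4 := hv z hz
        rw [← sq_lt_sq₀ (norm_nonneg _) (norm_nonneg _), Complex.sq_norm, Complex.sq_norm,
          Complex.normSq_apply, Complex.normSq_apply]
        simp only [Complex.sub_re, Complex.sub_im, Complex.one_re, Complex.one_im]
        nlinarith
      simp only [eval_mul, eval_sub, eval_X, eval_C, norm_mul]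
      exact (mul_le_mul_of_nonneg_left h2 (norm_nonneg _)).trans_lt
        (mul_lt_mul_of_pos_right h3 (norm_pos_iff.2 hw0))

/-- The coefficients beyond `t` are the values of a polynomial with controlled roots. -/
def St (t : ℤ) (φ : PowerSeries ℂ) : Prop :=
  ∃ v : ℂ[X], (∀ z, v.eval z = 0 → z.re ≤ (t : ℝ) / 2) ∧ ∀ k : ℕ, t < k →
    PowerSeries.coeff k φ = (∏ i ∈ range (-t - 1).toNat, ((k : ℂ) + i + 1)) * v.eval (k : ℂ)

/- `t ≤ -2`, `r = -t - 1 ≥ 1`: `v' = X * v.comp (X - 1) - C z * (X + r) * v`;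
`t ≥ -1`: `v' = v.comp (X - 1) - C z * v`.  `PowerSeries.coeff_succ_X_mul`, `k = 0` apart,
`prod_range_succ`, `prod_range_succ'`. -/
theorem St.step {t : ℤ} {φ : PowerSeries ℂ} (h : St t φ) {z : ℂ} (hz : ‖z‖ = 1) (h1 : z ≠ 1) :
    St (t + 1) ((PowerSeries.X - PowerSeries.C z) * φ) := by
  obtain ⟨v, hv, hc⟩ := h
  have key : ∀ x : ℂ, ¬ x.re ≤ ((t + 1 : ℤ) : ℝ) / 2 → v.eval x ≠ 0 ∧
      (‖v.eval (x - 1)‖ < ‖v.eval x‖ ∨ v.eval (x - 1) = v.eval x) := fun x hx => by
    push_cast at hx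
    exact ⟨fun e => hx (by linarith [hv x e]), shift_lt v hv (by linarith [not_le.1 hx])⟩
  rcases le_or_gt t (-2) with ht | ht
  · obtain ⟨s, rfl⟩ : ∃ s : ℕ, t = -(s : ℤ) - 2 := ⟨(-t - 2).toNat, by omega⟩
    have e1 : (-(-(s : ℤ) - 2) - 1).toNat = s + 1 := by omega
    have e2 : (-(-(s : ℤ) - 2 + 1) - 1).toNat = s := by omega
    rw [e1] at hc
    refine ⟨X * v.comp (X - 1) - C z * (X + C ((s : ℂ) + 1)) * v, fun x hx => ?_, fun k _ => ?_⟩
    · by_contra hn
      obtain ⟨h2, h3⟩ := key x hn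
      have h4 : ‖v.eval (x - 1)‖ ≤ ‖v.eval x‖ := h3.elim le_of_lt fun e => (congrArg _ e).le
      have h5 : ‖x‖ < ‖x + ((s : ℂ) + 1)‖ := by
        refine lt_of_pow_lt_pow_left₀ 2 (norm_nonneg _) ?_
        rw [Complex.sq_norm, Complex.sq_norm, Complex.normSq_apply, Complex.normSq_apply]
        have h6 : (0 : ℝ) ≤ s := s.cast_nonneg
        push_cast at hn
        simp only [Complex.add_re, Complex.add_im, Complex.natCast_re, Complex.natCast_im,
          Complex.one_re, Complex.one_im]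
        nlinarith [not_le.1 hn]
      simp only [eval_sub, eval_mul, eval_X, eval_comp, eval_one, eval_C, eval_add] at hx
      have h7 := congrArg norm (sub_eq_zero.1 hx)
      rw [norm_mul, norm_mul, norm_mul, hz, one_mul] at h7
      exact ((mul_le_mul_of_nonneg_left h4 (norm_nonneg _)).trans_lt
        (mul_lt_mul_of_pos_right h5 (norm_pos_iff.2 h2))).ne h7
    · simp only [eval_sub, eval_mul, eval_X, eval_comp, eval_one, eval_C, eval_add]
      rw [e2, sub_mul, map_sub, PowerSeries.coeff_C_mul, hc k (by omega), prod_range_succ]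
      rcases k with _ | k
      · rw [PowerSeries.coeff_zero_X_mul]
        push_cast
        ring
      · rw [PowerSeries.coeff_succ_X_mul, hc k (by omega), prod_range_succ']
        have e3 : ∏ i ∈ range s, ((k : ℂ) + ((i + 1 : ℕ) : ℂ) + 1) =
            ∏ i ∈ range s, (((k + 1 : ℕ) : ℂ) + i + 1) :=
          prod_congr rfl fun i _ => by push_cast; ring
        rw [e3]
        push_cast
        rw [add_sub_cancel_right]
        ring
  · have e1 : (-t - 1).toNat = 0 := by omega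
    have e2 : (-(t + 1) - 1).toNat = 0 := by omega
    rw [e1] at hc
    refine ⟨v.comp (X - 1) - C z * v, fun x hx => ?_, fun k hk => ?_⟩
    · by_contra hn
      obtain ⟨h2, h3⟩ := key x hn
      simp only [eval_sub, eval_mul, eval_X, eval_comp, eval_one, eval_C] at hx
      have h4 := sub_eq_zero.1 hx
      rcases h3 with h3 | h3
      · rw [h4, norm_mul, hz, one_mul] at h3
        exact h3.false
      · exact h1 (mul_right_cancel₀ h2 (by rw [← h4, h3, one_mul]))
    · obtain ⟨k, rfl⟩ : ∃ j, k = j + 1 := ⟨k - 1, by omega⟩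
      simp only [eval_sub, eval_mul, eval_X, eval_comp, eval_one, eval_C]
      rw [e2, sub_mul, map_sub, PowerSeries.coeff_C_mul, PowerSeries.coeff_succ_X_mul,
        hc k (by omega), hc _ (by omega)]
      push_cast
      simp

/- `invOneSubPow_val_succ_eq_mk_add_choose`; `v = C (c / D !)`. -/
theorem St.base (D : ℕ) {c : ℂ} (hc : c ≠ 0) :
    St (-(D + 1 : ℕ)) (PowerSeries.C c * (PowerSeries.invOneSubPow ℂ (D + 1)).val) := by
  have hD : (D.factorial : ℂ) ≠ 0 := Nat.cast_ne_zero.2 D.factorial_ne_zero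
  refine ⟨C (c / D.factorial), fun z hz => ?_, fun k _ => ?_⟩
  · rw [eval_C] at hz
    exact absurd hz (div_ne_zero hc hD)
  · have e : (-(-((D + 1 : ℕ) : ℤ)) - 1).toNat = D := by omega
    have h1 : ((k + 1).ascFactorial D : ℂ) = ∏ i ∈ range D, ((k : ℂ) + i + 1) := by
      rw [Nat.ascFactorial_eq_prod_range, Nat.cast_prod]
      exact prod_congr rfl fun i _ => by push_cast; ring
    rw [e, ← h1, Nat.ascFactorial_eq_factorial_mul_choose, PowerSeries.coeff_C_mul,
      PowerSeries.invOneSubPow_val_succ_eq_mk_add_choose, PowerSeries.coeff_mk, eval_C,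
      add_comm D k]
    push_cast
    field_simp

theorem St.ne {t : ℤ} {φ : PowerSeries ℂ} (h : St t φ) {k : ℕ} (hk : t < k) :
    PowerSeries.coeff k φ ≠ 0 := by
  obtain ⟨v, h1, h2⟩ := h
  rw [h2 k hk]
  refine mul_ne_zero (prod_ne_zero_iff.2 fun i _ => by exact_mod_cast Nat.succ_ne_zero (k + i))
    fun e => ?_
  have h3 := h1 _ e
  have h4 : (t : ℝ) < k := by exact_mod_cast hk
  rw [Complex.natCast_re] at h3
  linarith [k.cast_nonneg (α := ℝ)]

theorem rvb_St (D n : ℕ) : ∀ U : ℂ[X], U.natDegree = n →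
    (∀ z, U.eval z = 0 → ‖z‖ = 1 ∧ z ≠ 1) → St (n - (D + 1 : ℕ))
      ((U : PowerSeries ℂ) * (PowerSeries.invOneSubPow ℂ (D + 1)).val) := by
  induction n with
  | zero =>
    intro U h hU
    obtain ⟨c, rfl⟩ := natDegree_eq_zero.1 h
    have hc : c ≠ 0 := fun e => by simpa using (hU 0 (by simp [e])).1
    simpa using St.base D hc
  | succ n ih =>
    intro U h hU
    obtain ⟨z, hz⟩ := Complex.exists_root (f := U) (natDegree_pos_iff_degree_pos.1 (by omega))
    obtain ⟨W, rfl⟩ := dvd_iff_isRoot.2 hz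
    have hW : W ≠ 0 := fun e => by simp [e] at h
    rw [natDegree_mul (X_sub_C_ne_zero z) hW, natDegree_X_sub_C] at h
    have h2 := (ih W (by omega) fun y e => hU y (by rw [eval_mul, e, mul_zero])).step
      (hU z hz).1 (hU z hz).2
    have e1 : ((n + 1 : ℕ) : ℤ) - (D + 1 : ℕ) = n - (D + 1 : ℕ) + 1 := by omega
    rw [e1, Polynomial.coe_mul, Polynomial.coe_sub, coe_X, coe_C, mul_assoc]
    exact h2

/- Induction on `natDegree U` for `St (natDegree U - (D + 1)) (U * invOneSubPow)`. -/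
theorem rv (U : ℂ[X]) (hU : ∀ z, U.eval z = 0 → ‖z‖ = 1 ∧ z ≠ 1) (D k : ℕ)
    (hk : U.natDegree < k + (D + 1)) :
    PowerSeries.coeff k ((U : PowerSeries ℂ) * (PowerSeries.invOneSubPow ℂ (D + 1)).val) ≠ 0 :=
  (rvb_St D _ U rfl hU).ne (by omega)

end Pool.Agent.Lib.MP_bc213e_ag.WCI
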