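import Pool.Agent.Lib.MP_bc213e_ag.WCI.RV

/-! Regular pairs. -/

namespace Pool.Agent.Lib.MP_bc213e_ag.WCI

open Polynomial Finset

/-- The number of entries divisible by `q`. -/
def cnt {ι : Type} (s : Finset ι) (a : ι → ℕ) (q : ℕ) : ℕ := (s.filter fun i => q ∣ a i).card

variable {ι κ : Type} {s : Finset ι} {t : Finset κ} {a : ι → ℕ} {d : κ → ℕ}

theorem rega_prod (ha : ∀ i ∈ s, 0 < a i) {M : ℕ} (hM : ∀ i ∈ s, a i ≤ M) :
    ∏ i ∈ s, ∑ l ∈ range (a i), (X : ℂ[X]) ^ l =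
      ∏ q ∈ Icc 2 M, cyclotomic q ℂ ^ cnt s a q := by
  have h : ∀ i ∈ s, ∑ l ∈ range (a i), (X : ℂ[X]) ^ l =
      ∏ q ∈ Icc 2 M, if q ∣ a i then cyclotomic q ℂ else 1 := fun i hi => by
    rw [← prod_cyclotomic_eq_geom_sum (ha i hi), ← prod_filter]
    refine prod_congr (Finset.ext fun q => ?_) fun _ _ => rfl
    simp only [mem_erase, Nat.mem_divisors, mem_filter, mem_Icc]
    refine ⟨fun h => ?_, fun h => ⟨by omega, h.2, (ha i hi).ne'⟩⟩
    have h1 := Nat.le_of_dvd (ha i hi) h.2.1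
    have h2 := Nat.pos_of_dvd_of_pos h.2.1 (ha i hi)
    have h3 := hM i hi
    exact ⟨⟨by omega, by omega⟩, h.2.1⟩
  rw [prod_congr rfl h, prod_comm]
  refine prod_congr rfl fun q _ => ?_
  rw [← prod_filter, prod_const, cnt]

/- `prod_cyclotomic_eq_geom_sum`; both sides are `∏ q ∈ Icc 2 M, cyclotomic q ℂ ^ cnt ..`. -/
theorem geo_dvd (ha : ∀ i ∈ s, 0 < a i) (hd : ∀ j ∈ t, 0 < d j)
    (h : ∀ q, 1 < q → cnt s a q ≤ cnt t d q) :
    ∏ i ∈ s, ∑ l ∈ range (a i), (X : ℂ[X]) ^ l ∣ ∏ j ∈ t, ∑ l ∈ range (d j), (X : ℂ[X]) ^ l := by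
  rw [rega_prod ha (M := s.sup a + t.sup d) fun i hi => (le_sup hi).trans (Nat.le_add_right _ _),
    rega_prod hd (M := s.sup a + t.sup d) fun j hj => (le_sup hj).trans (Nat.le_add_left _ _)]
  exact prod_dvd_prod_of_dvd _ _ fun q hq => pow_dvd_pow _ (h q (mem_Icc.1 hq).1)

/-- The power series whose nonzero coefficients sit in `S`. -/
def regsSub (S : AddSubmonoid ℕ) : Subring (PowerSeries ℂ) where
  carrier := {F | ∀ k, k ∉ S → PowerSeries.coeff k F = 0}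
  mul_mem' := fun {F G} hF hG k hk => by
    rw [PowerSeries.coeff_mul]
    refine sum_eq_zero fun x hx => ?_
    by_cases h : x.1 ∈ S
    · rw [hG x.2 fun e => hk (mem_antidiagonal.1 hx ▸ S.add_mem h e), mul_zero]
    · rw [hF x.1 h, zero_mul]
  one_mem' := fun k hk => by
    rw [PowerSeries.coeff_one, if_neg fun e : k = 0 => hk (e ▸ S.zero_mem)]
  add_mem' := fun {F G} hF hG k hk => by rw [map_add, hF k hk, hG k hk, add_zero]
  zero_mem' := fun k _ => map_zero _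
  neg_mem' := fun {F} hF k hk => by rw [map_neg, hF k hk, neg_zero]

lemma regs_pow {S : AddSubmonoid ℕ} {m : ℕ} (hm : m ∈ S) :
    (PowerSeries.X : PowerSeries ℂ) ^ m ∈ regsSub S := fun k hk => by
  rw [PowerSeries.coeff_X_pow, if_neg fun e : k = m => hk (e ▸ hm)]

lemma regs_inv {S : AddSubmonoid ℕ} {m : ℕ} (h0 : 0 < m) (hm : m ∈ S) :
    ∃ G ∈ regsSub S, (1 - PowerSeries.X ^ m) * G = 1 := by
  refine ⟨PowerSeries.mk fun n => if m ∣ n then 1 else 0, fun k hk => ?_, ?_⟩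
  · rw [PowerSeries.coeff_mk, if_neg]
    rintro ⟨c, rfl⟩
    exact hk (by simpa [mul_comm] using S.nsmul_mem hm c)
  · ext k
    rw [sub_mul, one_mul, map_sub, PowerSeries.coeff_X_pow_mul', PowerSeries.coeff_mk,
      PowerSeries.coeff_one]
    by_cases h : m ≤ k
    · rw [if_pos h, PowerSeries.coeff_mk, if_neg (by omega : ¬ k = 0)]
      simp only [Nat.dvd_sub_iff_left h dvd_rfl, sub_self]
    · rw [if_neg h, sub_zero]
      refine if_congr ⟨fun e => Nat.eq_zero_of_dvd_of_lt e (by omega), ?_⟩ rfl rfl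
      rintro rfl
      exact dvd_zero m

/- The series whose nonzero coefficients sit in `S` are closed under products
(`PowerSeries.coeff_mul`); `mk fun n => if a ∣ n then 1 else 0` inverts `1 - X ^ a`. -/
theorem supp (S : AddSubmonoid ℕ) (ha : ∀ i ∈ s, 0 < a i) (haS : ∀ i ∈ s, a i ∈ S)
    (hdS : ∀ j ∈ t, d j ∈ S) {F : PowerSeries ℂ}
    (hF : F * ∏ i ∈ s, (1 - PowerSeries.X ^ a i) = ∏ j ∈ t, (1 - PowerSeries.X ^ d j)) {k : ℕ}
    (hk : PowerSeries.coeff k F ≠ 0) : k ∈ S := by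
  choose! G h1 h2 using fun i hi => regs_inv (ha i hi) (haS i hi)
  have h3 : F = (∏ j ∈ t, (1 - PowerSeries.X ^ d j)) * ∏ i ∈ s, G i := by
    rw [← hF, mul_assoc, ← prod_mul_distrib, prod_congr rfl h2, prod_const_one, mul_one]
  have h4 : F ∈ regsSub S := h3 ▸ mul_mem
    (prod_mem fun j hj => sub_mem (one_mem _) (regs_pow (hdS j hj))) (prod_mem h1)
  exact by_contra fun e => hk (h4 k e)

theorem regB_ne {n : ℕ} (hn : 0 < n) : (∑ l ∈ range n, (X : ℂ[X]) ^ l) ≠ 0 :=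
  (monic_geom_sum_X hn.ne').ne_zero

theorem regB_deg {n : ℕ} (hn : 0 < n) : (∑ l ∈ range n, (X : ℂ[X]) ^ l).natDegree + 1 = n := by
  have h1 : (X - C 1 : ℂ[X]) * ∑ l ∈ range n, (X : ℂ[X]) ^ l = X ^ n - C 1 := by
    simpa using mul_geom_sum (X : ℂ[X]) n
  have h2 := congrArg natDegree h1
  rw [natDegree_mul (X_sub_C_ne_zero 1) (regB_ne hn), natDegree_X_sub_C,
    natDegree_X_pow_sub_C] at h2
  omega

theorem regB_degs (ha : ∀ i ∈ s, 0 < a i) :
    (∏ i ∈ s, ∑ l ∈ range (a i), (X : ℂ[X]) ^ l).natDegree + s.card = ∑ i ∈ s, a i := by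
  rw [natDegree_prod _ _ fun i hi => regB_ne (ha i hi), card_eq_sum_ones, ← sum_add_distrib]
  exact sum_congr rfl fun i hi => regB_deg (ha i hi)

theorem regB_root {n : ℕ} (hn : 0 < n) {z : ℂ} (hz : ∑ l ∈ range n, z ^ l = 0) :
    ‖z‖ = 1 ∧ z ≠ 1 := by
  have h1 : z ^ n = 1 := by
    have h2 := mul_geom_sum z n
    rw [hz, mul_zero] at h2
    exact (sub_eq_zero.1 h2.symm)
  refine ⟨?_, ?_⟩
  · have h3 : ‖z‖ ^ n = 1 := by rw [← norm_pow, h1, norm_one]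
    exact (pow_eq_one_iff_of_nonneg (norm_nonneg z) hn.ne').1 h3
  · rintro rfl
    simp only [one_pow, sum_const, card_range, nsmul_eq_mul, mul_one, Nat.cast_eq_zero] at hz
    omega

theorem regB_prod (s : Finset ι) (a : ι → ℕ) :
    ∏ i ∈ s, (1 - PowerSeries.X ^ a i : PowerSeries ℂ) = (1 - PowerSeries.X) ^ s.card *
      ∏ i ∈ s, ∑ l ∈ range (a i), (PowerSeries.X : PowerSeries ℂ) ^ l := by
  rw [← prod_const, ← prod_mul_distrib]
  exact prod_congr rfl fun i _ => (mul_neg_geom_sum _ _).symm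

/- `U` from `geo_dvd`, `D + 1 = s.card - t.card`, `F = U * invOneSubPow (D + 1)`,
`mul_neg_geom_sum`, `rv`, `supp`. -/
theorem reg (S : AddSubmonoid ℕ) (ha : ∀ i ∈ s, 0 < a i) (hd : ∀ j ∈ t, 0 < d j)
    (haS : ∀ i ∈ s, a i ∈ S) (hdS : ∀ j ∈ t, d j ∈ S) (hc : t.card < s.card)
    (h : ∀ q, 1 < q → cnt s a q ≤ cnt t d q) {k : ℕ} (hk : ∑ j ∈ t, d j < k + ∑ i ∈ s, a i) :
    k ∈ S := by
  obtain ⟨U, hU⟩ := geo_dvd ha hd h
  obtain ⟨D, hD⟩ : ∃ D, s.card = t.card + (D + 1) := ⟨s.card - t.card - 1, by omega⟩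
  have hdne : (∏ j ∈ t, ∑ l ∈ range (d j), (X : ℂ[X]) ^ l) ≠ 0 :=
    prod_ne_zero_iff.2 fun j hj => regB_ne (hd j hj)
  have hane : (∏ i ∈ s, ∑ l ∈ range (a i), (X : ℂ[X]) ^ l) ≠ 0 :=
    prod_ne_zero_iff.2 fun i hi => regB_ne (ha i hi)
  have hUne : U ≠ 0 := by
    rintro rfl
    exact hdne (by rw [hU, mul_zero])
  have hdeg : U.natDegree < k + (D + 1) := by
    have h1 := regB_degs hd
    have h2 := regB_degs ha
    rw [hU, natDegree_mul hane hUne] at h1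
    omega
  have hroot : ∀ z, U.eval z = 0 → ‖z‖ = 1 ∧ z ≠ 1 := by
    intro z hz
    have h1 := congrArg (eval z) hU
    rw [eval_mul, hz, mul_zero, eval_prod, prod_eq_zero_iff] at h1
    obtain ⟨j, hj, h2⟩ := h1
    refine regB_root (hd j hj) ?_
    simpa [eval_finsetSum] using h2
  have hcoe : ∏ j ∈ t, ∑ l ∈ range (d j), (PowerSeries.X : PowerSeries ℂ) ^ l =
      (∏ i ∈ s, ∑ l ∈ range (a i), (PowerSeries.X : PowerSeries ℂ) ^ l) *
        (U : PowerSeries ℂ) := by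
    have h1 := congrArg (coeToPowerSeries.ringHom (R := ℂ)) hU
    simpa only [map_mul, map_prod, map_sum, map_pow, coeToPowerSeries.ringHom_apply, coe_X]
      using h1
  refine supp S ha haS hdS ?_ (rv U hroot D k hdeg)
  rw [regB_prod, regB_prod, hcoe, hD,
    ← PowerSeries.one_sub_pow_add_mul_invOneSubPow_val_eq_one_sub_pow ℂ t.card (D + 1)]
  ring

end Pool.Agent.Lib.MP_bc213e_ag.WCI
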